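import Pool.Agent.Lib.MP_904526_E.Main

set_option autoImplicit false

/-!
# Real Henon maps are mildly dissipative beyond the threshold |b| = 1/4

There is `b₁ > 1/4` such that for all real `c` and all real `b` with `0 < |b| < b₁` the Henon map
`(x, y) ↦ (x² + c - b y, x)` is mildly dissipative: for EVERY ergodic invariant probability measure
which is not supported on a sink (saddles, neutral periodic orbits, non-atomic measures with zero or
positive top exponent), almost every stable set is an injectively immersed line both of whose ends
are unbounded. The number 1/4 of Crovisier and Pujals, which comes from Wiman's theorem on entire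
functions of order less than 1/2, is therefore not the truth.

Sketch of the proof. Assume that one branch of a stable curve is bounded. The curve extends to an
entire curve of order `log 2 / (Λ + log (1/|b|))`, where `Λ ≥ 0` is the top exponent, in the set of
points of `ℂ²` with bounded forward orbits, and the bounded branch lies in the zero set of the Green
function of the inverse map. Order less than 1/2 is excluded by Phragmen-Lindelof. If the order is only
slightly larger than 1/2, rescaling at large scales, a Hopf lemma and compactness give an entire curve,
real on the real line, on which the Green function is exactly `t |Im w|`. Then the inverse iterates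
expand the real curve by exactly `2^n` up to subexponential factors outside of a small set, hence they
expand the normal direction less than the area by a definite exponential factor, and the image of a
thin strip around the curve has too large area when `|b| < 1/2`: a contradiction.
-/

open Set Filter Topology MeasureTheory

namespace Pool.Agent.Results.MP_904526_an.BeyondOneQuarter

/-- The real quadratic Henon map with parameters `c` and `b`. -/
def henonMap (c b : ℝ) (p : ℝ × ℝ) : ℝ × ℝ := (p.1 ^ 2 + c - b * p.2, p.1)

/-- The stable set of `x`: the points whose forward orbit approaches that of `x` exponentially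
fast. -/
def stableSet (c b : ℝ) (x : ℝ × ℝ) : Set (ℝ × ℝ) :=
  {y | ∃ κ : ℝ, 0 < κ ∧ ∃ C : ℝ, ∀ n : ℕ,
    dist ((henonMap c b)^[n] y) ((henonMap c b)^[n] x) ≤ C * Real.exp (-κ * n)}

/-- `μ` is supported on a sink: the orbit of a periodic point `p`, some iterate of the map fixing
`p` being a contraction at `p`, has full measure. -/
def SupportedOnSink (c b : ℝ) (μ : Measure (ℝ × ℝ)) : Prop :=
  ∃ (p : ℝ × ℝ) (m : ℕ), 0 < m ∧ (henonMap c b)^[m] p = p ∧
    ‖fderiv ℝ ((henonMap c b)^[m]) p‖ < 1 ∧
    μ {q | ∃ k : ℕ, q = (henonMap c b)^[k] p} = 1

/-- Mild dissipation: `|b| < 1` and for every ergodic invariant probability measure which is not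
supported on a sink, for almost every `x` the stable set of `x` is an injectively immersed line of
class C^1 through `x` and both components of the stable set minus `x` are unbounded. -/
def MildlyDissipative (c b : ℝ) : Prop :=
  |b| < 1 ∧ ∀ μ : Measure (ℝ × ℝ), IsProbabilityMeasure μ → Ergodic (henonMap c b) μ →
    ¬ SupportedOnSink c b μ →
    ∀ᵐ x ∂μ, ∃ γ : ℝ → ℝ × ℝ, ContDiff ℝ 1 γ ∧ (∀ t, deriv γ t ≠ 0) ∧
      Function.Injective γ ∧ γ 0 = x ∧ range γ = stableSet c b x ∧
      ¬ Bornology.IsBounded (γ '' Ioi 0) ∧ ¬ Bornology.IsBounded (γ '' Iio 0)

theorem result : ∃ b₁ : ℝ, 1 / 4 < b₁ ∧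
    ∀ c b : ℝ, 0 < |b| → |b| < b₁ → MildlyDissipative c b :=
  ME.main

end Pool.Agent.Results.MP_904526_an.BeyondOneQuarter
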