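import Pool.Agent.Lib.MP_904526_H.All4

set_option autoImplicit false

/-!
# Bounded stable branches of dissipative Henon maps

For all real `c`, all real `b` with `0 < |b| < 1` and EVERY ergodic invariant probability measure `μ` of
the Henon map `(x, y) ↦ (x² + c - b y, x)` which is not supported on a sink (saddles, neutral periodic
orbits, non-atomic measures with zero or positive top exponent `Λ`), almost every stable set is an
injectively immersed line. Mild dissipation says that its two branches are unbounded. We prove that a
bounded branch `Γ` would satisfy all of the following conditions; `Γ'` is the other branch.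
* `Γ` consists of points with a bounded full orbit and does not meet the unstable set of any periodic
  saddle (no transversality is assumed).
* The closure of `Γ` is a null set for every ergodic measure without atoms and with a positive top
  exponent: a bounded branch cannot accumulate on chaotic dynamics. If the point is periodic, then the
  closure of `Γ` does not even meet the stable and the unstable sets of almost all points of this measure.
* If `Γ'` is bounded, too, then `0 ≤ Λ ≤ log (2|b|)`. So at most one branch is bounded if `|b| < 1/2`.
* If the point is periodic with a negative stable eigenvalue, then `Γ'` is bounded, too.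

The determinant of the derivative is `b`, so a periodic point whose return map has an eigenvalue of
modulus more than one has another eigenvalue of modulus less than one: it is a saddle.

Sketch of the proof. A bounded stable branch and all unstable curves consist of points with bounded
backward orbits. Two arcs of such points with common ends which do not coincide enclose a nonempty
bounded open set, whose preimages stay bounded while their areas tend to infinity.
(1) `x` periodic, `q` in another orbit or not a saddle at `x`: the curve meets the unstable curve of
`q` along a whole orbit; it remains to exclude that the branch is contained in the unstable curve (a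
saddle connection). Both curves extend to entire curves `ψ`, `φ`; the change of parameter `h` with
`ψ = φ ∘ h` is holomorphic in an open set and tends to infinity at its boundary, so the set is dense
(as in the theorem of Rado) and `ψ` is bounded, which contradicts the theorem of Liouville.
(2) `q = x`: the arcs from `x` to the homoclinic point.
(3) No atoms: two stable curves which touch the same arc of an unstable curve from the same side at
nearby points must meet, so the points whose stable curve touches an unstable curve without crossing
it are in countably many stable sets and have measure zero. A crossing persists for the stable curves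
of nearby points, in particular of recurrent preimages of `x`, which meet the same unstable curve also
near `q`; this gives two different arcs with common ends.
(4) Closures: almost every point of a hyperbolic measure `ν` without atoms lies in small open boxes
bounded by two stable and two unstable curves of the measure. The branch avoids the stable curves and,
since the times at which it is on a given unstable curve form an interval, its tail avoids the frontier
of the box; if it accumulates at the point, its tail stays in the box. Two points have disjoint boxes.
For periodic `x` the closure is invariant under a return map, and almost every point of `ν` is recurrent.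
(5) Exponents: the stable curve is the real part of an entire curve of order at most
`log 2 / (Λ + log (1/|b|))`; theorem of Phragmen and Lindelof. The return map of a periodic point acts on
its stable curve by `t ↦ A t`, where `A` is the stable eigenvalue; it exchanges the branches if `A < 0`.
-/

open Set Filter Topology MeasureTheory

namespace Pool.Agent.Results.MP_904526_an.BoundedBranches

/-- The real quadratic Henon map with parameters `c` and `b`. -/
def henonMap (c b : ℝ) (p : ℝ × ℝ) : ℝ × ℝ := (p.1 ^ 2 + c - b * p.2, p.1)

/-- The inverse of the Henon map (for `b ≠ 0`). -/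
noncomputable def henonInv (c b : ℝ) (p : ℝ × ℝ) : ℝ × ℝ := (p.2, (p.2 ^ 2 + c - p.1) / b)

/-- The stable set of `x`: the points whose forward orbit approaches that of `x` exponentially
fast. -/
def stableSet (c b : ℝ) (x : ℝ × ℝ) : Set (ℝ × ℝ) :=
  {y | ∃ κ : ℝ, 0 < κ ∧ ∃ C : ℝ, ∀ n : ℕ,
    dist ((henonMap c b)^[n] y) ((henonMap c b)^[n] x) ≤ C * Real.exp (-κ * n)}

/-- The unstable set of `x`: the points whose backward orbit approaches that of `x` exponentially
fast. -/
def unstableSet (c b : ℝ) (x : ℝ × ℝ) : Set (ℝ × ℝ) :=
  {y | ∃ κ : ℝ, 0 < κ ∧ ∃ C : ℝ, ∀ n : ℕ,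
    dist ((henonInv c b)^[n] y) ((henonInv c b)^[n] x) ≤ C * Real.exp (-κ * n)}

/-- `μ` is supported on a sink: the orbit of a periodic point `p`, some iterate of the map fixing
`p` being a contraction at `p`, has full measure. -/
def SupportedOnSink (c b : ℝ) (μ : Measure (ℝ × ℝ)) : Prop :=
  ∃ (p : ℝ × ℝ) (m : ℕ), 0 < m ∧ (henonMap c b)^[m] p = p ∧
    ‖fderiv ℝ ((henonMap c b)^[m]) p‖ < 1 ∧
    μ {q | ∃ k : ℕ, q = (henonMap c b)^[k] p} = 1

/-- `p` is a periodic point and the derivative of the return map at `p` has an eigenvalue of modulus
more than one. -/
def IsSaddle (c b : ℝ) (p : ℝ × ℝ) : Prop :=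
  ∃ n : ℕ, 1 ≤ n ∧ (henonMap c b)^[n] p = p ∧ ∃ m : ℝ, 1 < |m| ∧ ∃ v : ℝ × ℝ, v ≠ 0 ∧
    fderiv ℝ ((henonMap c b)^[n]) p v = m • v

/-- `x` is a periodic point and, for some `n ≥ 1` with `f^n(x) = x`, the derivative of `f^n` at `x` has
an eigenvalue `m` of modulus at least one such that the other eigenvalue `b^n / m`, the stable one, is
negative. -/
def Flips (c b : ℝ) (x : ℝ × ℝ) : Prop :=
  ∃ n : ℕ, 1 ≤ n ∧ (henonMap c b)^[n] x = x ∧ ∃ m : ℝ, 1 ≤ |m| ∧ m * b ^ n < 0 ∧ ∃ v : ℝ × ℝ, v ≠ 0 ∧
    fderiv ℝ ((henonMap c b)^[n]) x v = m • v

/-- The top Lyapunov exponent of `μ`: the infimum over `n ≥ 1` (by subadditivity also the limit) of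
`1/n` times the integral of `log ‖D(f^n)‖`. -/
noncomputable def topExponent (c b : ℝ) (μ : Measure (ℝ × ℝ)) : ℝ :=
  sInf ((fun n : ℕ => (∫ x, Real.log ‖fderiv ℝ ((henonMap c b)^[n]) x‖ ∂μ) / (n : ℝ)) '' Ici 1)

/-- The points with a bounded full orbit which are in the unstable set of no periodic saddle. -/
def residualSet (c b : ℝ) : Set (ℝ × ℝ) :=
  {y | (∃ B : ℝ, ∀ n : ℕ, ‖(henonMap c b)^[n] y‖ ≤ B ∧ ‖(henonInv c b)^[n] y‖ ≤ B) ∧
    ∀ q : ℝ × ℝ, IsSaddle c b q → y ∉ unstableSet c b q}

/-- `ν` is an ergodic invariant probability measure without atoms and with a positive top exponent. -/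
def Chaotic (c b : ℝ) (ν : Measure (ℝ × ℝ)) : Prop :=
  IsProbabilityMeasure ν ∧ Ergodic (henonMap c b) ν ∧ (∀ y, ν {y} = 0) ∧ 0 < topExponent c b ν

theorem result (c b : ℝ) (hb0 : 0 < |b|) (hb1 : |b| < 1) (μ : Measure (ℝ × ℝ))
    (hp : IsProbabilityMeasure μ) (hμ : Ergodic (henonMap c b) μ) (hs : ¬ SupportedOnSink c b μ) :
    ∀ᵐ x ∂μ, ∃ γ : ℝ → ℝ × ℝ, ContDiff ℝ 1 γ ∧ (∀ t, deriv γ t ≠ 0) ∧
      Function.Injective γ ∧ γ 0 = x ∧ range γ = stableSet c b x ∧
      ∀ Γ Γ' : Set (ℝ × ℝ),
        (Γ = γ '' Ioi 0 ∧ Γ' = γ '' Iio 0) ∨ (Γ = γ '' Iio 0 ∧ Γ' = γ '' Ioi 0) →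
        Bornology.IsBounded Γ →
        Γ ⊆ residualSet c b ∧
        (∀ ν, Chaotic c b ν → ν (closure Γ) = 0 ∧
          ((∃ n, 1 ≤ n ∧ (henonMap c b)^[n] x = x) →
            ∀ᵐ y ∂ν, Disjoint (closure Γ) (stableSet c b y ∪ unstableSet c b y))) ∧
        (Bornology.IsBounded Γ' → 0 ≤ topExponent c b μ ∧ topExponent c b μ ≤ Real.log (2 * |b|)) ∧
        (Flips c b x → Bornology.IsBounded Γ') :=
  MH.all4 c b hb0 hb1 μ hp hμ hs

end Pool.Agent.Results.MP_904526_an.BoundedBranches
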