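import Pool.Agent.Lib.MP_904526_R.H
import Pool.Agent.Lib.MP_904526_R.P
import Pool.Agent.Lib.MP_904526_R.Q

set_option autoImplicit false

/-!
# Explicit regions of mildly dissipative real Henon maps reaching up to |b| = 1

The Henon map `(x, y) ↦ (x² + c - b y, x)`, `0 < |b| < 1`, is mildly dissipative if
* `b < 0` and `c > -3 (1 + b)² / 4` (all orientation reversing dissipative maps before the first
  period doubling of the fixed point), or
* `0 < b ≤ 1/2` and `c ≥ -2 (1 - b) / 5`, or
* `1/2 ≤ b ≤ 9/10` and `c ≥ 2 b - 1`, `c ≥ 3 b - 9/5`, or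
* `0 < b ≤ c`, or
* `c < -2 (1 + |b|)²`.

Sketch of the proof. Let `K` be the set of points with bounded orbit, `x' = x² + c - b y`,
`W (x) = x³/3 - (1+b) x²/2 + c x`. In the first four regions `f` is gradient-like on `K`.
* `b ≤ -1/4` (for `|b| < 1/4` the result is known): put `d = x - y`, `d' = x' - x`, `σ = x' - y`,
  `a = 1 + b`. The function `V (x, y) = W (x) + (b/2) d² - (a + x + y) d²/4 + d³/12` satisfies
  `V (f z) - V z = ((a + x' + x) d'² + (a + x + y) d²)/4 - (b/2) σ² - (d³ + d'³)/12`.
  On `K` one has `x + y > -a` (look at the minimum of `x + y`), which makes the right side positive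
  if `σ ≤ 0`; if `σ > 0` it is at least `(d² + d'²)/12` times
  `4x² - 3x + 4c + (5 - 4b) y + 3a - 12b`, which is positive on `K` by the recursion for the two
  preceding points of the orbit.
* `0 < b ≤ 1/2` and `1/2 ≤ b ≤ 9/10`: with the same `V` and
  `U (x, y) = (W (x) + W (y))/2 - (x + y) d²/4` the function `V + s U` satisfies
  `(V + s U) (f z) - (V + s U) z = ((a + 2x) d'² + (a + 2y) d²)/4 + (s (1-b)/4 - b/2) σ²
  - (s - 2) (d³ + d'³)/12`; take `s = 2` if `b ≤ 1/2` (then `a + 2x > 0` on `K` suffices) and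
  `s = 2b/(1-b)` if `b ≥ 1/2`, with explicit bounds for `K`.
* `0 < b ≤ c`: with `V = W (x) - (b/2) (x - y)²` one has
  `V (f z) - V z = (x' - x)² ((1 - 3b)/2 + (2x + x')/3) + (b/2) (x' - 2x + y)²`, positive if
  `x ≥ (3b - 1)/2` on `K`. This bound follows from the slow growth, along backward orbits, of the
  distance to the upper fixed point.
Hence every ergodic measure is carried by a fixed point; the lower one, where `V` is larger, is a
sink or equal to the upper one; and a bounded branch of the stable curve of the upper fixed point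
would consist of points of `K` with `V` smaller than at every fixed point, which have no backward
limit set.
* Last region (the classical horseshoe region of Devaney-Nitecki and Hubbard-Oberste-Vorth): by an
  elementary inequality (the Schwarz lemma for the two solutions of `x² = x' - c + b x''`), every
  smooth curve in `K` is expanded, for the Poincaré metric of an interval on each coordinate, by the
  iterates of the map or of its inverse; so `K` contains no bounded branch.
The stable curve theorem used for all measures (also neutral fixed points) is the one of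
`BeyondOneQuarter`.
-/

open Set Filter Topology MeasureTheory

namespace Pool.Agent.Results.MP_904526_an.ExplicitRegions

/-- The real quadratic Henon map with parameters `c` and `b`. -/
def henonMap (c b : ℝ) (p : ℝ × ℝ) : ℝ × ℝ := (p.1 ^ 2 + c - b * p.2, p.1)

/-- The stable set of `x`: the points whose forward orbit approaches that of `x` exponentially
fast. -/
def stableSet (c b : ℝ) (x : ℝ × ℝ) : Set (ℝ × ℝ) :=
  {y | ∃ κ : ℝ, 0 < κ ∧ ∃ C : ℝ, ∀ n : ℕ,
    dist ((henonMap c b)^[n] y) ((henonMap c b)^[n] x) ≤ C * Real.exp (-κ * n)}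

/-- `μ` is supported on a sink: the orbit of a periodic point `p`, some iterate of the map fixing
`p` being a contraction at `p`, has full measure. -/
def SupportedOnSink (c b : ℝ) (μ : Measure (ℝ × ℝ)) : Prop :=
  ∃ (p : ℝ × ℝ) (m : ℕ), 0 < m ∧ (henonMap c b)^[m] p = p ∧
    ‖fderiv ℝ ((henonMap c b)^[m]) p‖ < 1 ∧
    μ {q | ∃ k : ℕ, q = (henonMap c b)^[k] p} = 1

/-- Mild dissipation: `|b| < 1` and for every ergodic invariant probability measure which is not
supported on a sink, for almost every `x` the stable set of `x` is an injectively immersed line of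
class C^1 through `x` and both components of the stable set minus `x` are unbounded. -/
def MildlyDissipative (c b : ℝ) : Prop :=
  |b| < 1 ∧ ∀ μ : Measure (ℝ × ℝ), IsProbabilityMeasure μ → Ergodic (henonMap c b) μ →
    ¬ SupportedOnSink c b μ →
    ∀ᵐ x ∂μ, ∃ γ : ℝ → ℝ × ℝ, ContDiff ℝ 1 γ ∧ (∀ t, deriv γ t ≠ 0) ∧
      Function.Injective γ ∧ γ 0 = x ∧ range γ = stableSet c b x ∧
      ¬ Bornology.IsBounded (γ '' Ioi 0) ∧ ¬ Bornology.IsBounded (γ '' Iio 0)

theorem result (c b : ℝ) (hb0 : 0 < |b|) (hb1 : |b| < 1)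
    (h : (b < 0 ∧ -(3 * (1 + b) ^ 2) / 4 < c) ∨
      (0 < b ∧ b ≤ 1 / 2 ∧ -(2 * (1 - b)) / 5 ≤ c) ∨
      (1 / 2 ≤ b ∧ b ≤ 9 / 10 ∧ 2 * b - 1 ≤ c ∧ 3 * b - 9 / 5 ≤ c) ∨
      (0 < b ∧ b ≤ c) ∨
      c < -2 * (1 + |b|) ^ 2) : MildlyDissipative c b := by
  rcases h with ⟨h1, h2⟩ | ⟨h1, h2, h3⟩ | ⟨h1, h2, h3, h4⟩ | ⟨h1, h2⟩ | h
  · rcases le_or_gt b (-1 / 4) with h3 | h3
    · exact MR.region_neg4 c b h3 (abs_lt.1 hb1).1 h2
    · exact MR.quarter c b hb0 (by rw [abs_of_neg h1]; linarith)
  · exact MR.region_A c b h1 h2 (by rw [neg_div] at h3; exact h3)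
  · rcases le_or_gt b c with h5 | h5
    · exact MR.region_pos c b (by linarith) (abs_lt.1 hb1).2 h5
    · have h6 : c ≤ (1 + b) ^ 2 / 4 := by nlinarith [sq_nonneg (1 - b)]
      rcases le_or_gt b (4 / 5) with h7 | h7
      · exact MR.region_B1 c b h1 h7 h3 h6
      · exact MR.region_B2 c b h7.le h2 h4 h6
  · exact MR.region_pos c b h1 (abs_lt.1 hb1).2 h2
  · exact MR.region_shoe c b hb0 hb1 h

end Pool.Agent.Results.MP_904526_an.ExplicitRegions
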