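import Pool.Agent.Lib.MP_904526_an.Z

set_option autoImplicit false

/-!
# Mild dissipation of real Henon maps for all hyperbolic non-atomic measures

For all real `c` and all real `b` with `0 < |b| < 1`, and for EVERY ergodic invariant probability
measure without atoms whose top Lyapunov exponent is positive (for instance every ergodic measure of
positive entropy), for almost every `x` the stable set `W^s(x)` is an injectively immersed line of
class C^1 through `x`, and both components of `W^s(x)` minus `x` are unbounded.

Sketch of the proof. Stable and unstable curves of almost every point are built from Kingman's theorem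
and a comparison lemma for backward recursions (the inverse map is quadratic). By recurrence a bounded
branch consists of points with bounded backward orbits, and so do the unstable curves. Local product
structure then gives an open box whose frontier consists of points with bounded backward orbits,
which is impossible since the inverse map multiplies areas by `1/|b|`, unless the measure has an atom.
-/

open Set Filter Topology MeasureTheory

namespace Pool.Agent.Results.MP_904526_an.HyperbolicMeasures

/-- The real quadratic Henon map with parameters `c` and `b`. -/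
def henonMap (c b : ℝ) (p : ℝ × ℝ) : ℝ × ℝ := (p.1 ^ 2 + c - b * p.2, p.1)

/-- The stable set of `x`: the points whose forward orbit approaches that of `x` exponentially
fast. -/
def stableSet (c b : ℝ) (x : ℝ × ℝ) : Set (ℝ × ℝ) :=
  {y | ∃ κ : ℝ, 0 < κ ∧ ∃ C : ℝ, ∀ n : ℕ,
    dist ((henonMap c b)^[n] y) ((henonMap c b)^[n] x) ≤ C * Real.exp (-κ * n)}

theorem result (c b : ℝ) (hb0 : b ≠ 0) (hb1 : |b| < 1) (μ : Measure (ℝ × ℝ))
    [IsProbabilityMeasure μ] (hμ : Ergodic (henonMap c b) μ) (hna : ∀ x, μ {x} = 0)
    (hpos : ∃ δ : ℝ, 0 < δ ∧ ∀ n : ℕ, 1 ≤ n →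
      δ * n ≤ ∫ x, Real.log ‖fderiv ℝ ((henonMap c b)^[n]) x‖ ∂μ) :
    ∀ᵐ x ∂μ, ∃ γ : ℝ → ℝ × ℝ, ContDiff ℝ 1 γ ∧ (∀ t, deriv γ t ≠ 0) ∧
      Function.Injective γ ∧ γ 0 = x ∧ range γ = stableSet c b x ∧
      ¬ Bornology.IsBounded (γ '' Ioi 0) ∧ ¬ Bornology.IsBounded (γ '' Iio 0) :=
  MD.main c b hb0 hb1 μ hμ hna hpos

end Pool.Agent.Results.MP_904526_an.HyperbolicMeasures
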